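import Pool.Agent.H75.PQ.Tse
import Pool.Agent.H94.TM.Gra
import Pool.Agent.H85.AF.Complete

/-!
helper94 (Tseitin formulas for AC0[p]-Frege): the lower bounds for plain refutations, from helper75's version with pigeonhole and rank axioms.
-/

set_option autoImplicit false
open Finset

namespace PPh

open ACpFrege

theorem refutesR_of {p : ℕ} {S : List (Rule p)} {d P : ℕ} {F : CNF} {π : List (Fm p)} (h : Refutes S d F π) : RefutesR S d P F π :=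
  ⟨h.1, fun i hi => Or.inl (h.2.1 i hi), h.2.2⟩

/-- The lower bound for graphs with a grid minor: all sets of sound rules with at most `n^c` variables each. -/
def StatementTMu : Prop :=
  ∀ p : ℕ, p.Prime → ∃ n₀ : ℕ, ∀ n ≥ n₀, ∀ d : ℕ,
    Real.log n ^ (d + 1) ≤ (n : ℝ) ^ (Real.log 2 / (400 * Real.log (2 * p + 4))) →
    ∀ S : List (Rule p), (∀ R ∈ S, R.Sound) → (∀ R ∈ S, (R.vars : ℝ) ≤ (n : ℝ) ^ (Real.log 2 / (400 * Real.log (2 * p + 4)))) →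
    ∀ (v : ℕ) (G : SimpleGraph (Fin v)) [DecidableRel G.Adj], G.Connected → GridMinor n G →
      (∀ w, (G.degree w : ℝ) ≤ (n : ℝ) ^ (Real.log 2 / (400 * Real.log (2 * p + 4)))) →
      (∀ q : ℕ, 2 ≤ q → ∀ σ : Fin v → ZMod q, ((p ^ q.factorization p : ℕ) : ZMod q) ∣ ∑ w, σ w → ∑ w, σ w ≠ 0 →
        ∀ π : List (Fm p), Refutes S d (tsg G q σ) π →
          (2 : ℝ) ^ ((n : ℝ) ^ (Real.log 2 / (400 * Real.log (2 * p + 4)) / (d + 1))) ≤ psize π) ∧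
      (p ≠ 2 → ∀ σ : Fin v → ZMod 2, ∑ w, σ w ≠ 0 →
        ∀ π : List (Fm p), Refutes S d (tsgb G σ) π →
          (2 : ℝ) ^ ((n : ℝ) ^ (Real.log 2 / (400 * Real.log (2 * p + 4)) / (d + 1))) ≤ psize π)

/-- The lower bound for expanders. -/
def StatementTEu : Prop :=
  ∀ p : ℕ, p.Prime → ∀ k : ℕ, ∃ v₀ : ℕ, ∀ v ≥ v₀, ∀ d : ℕ,
    Real.log v ^ (d + 1) ≤ (v : ℝ) ^ (Real.log 2 / (2400 * Real.log (2 * p + 4))) →
    ∀ S : List (Rule p), (∀ R ∈ S, R.Sound) → (∀ R ∈ S, (R.vars : ℝ) ≤ (v : ℝ) ^ (Real.log 2 / (2400 * Real.log (2 * p + 4)))) →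
    ∀ (G : SimpleGraph (Fin v)) [DecidableRel G.Adj], Exp k G →
      (∀ w, (G.degree w : ℝ) ≤ (v : ℝ) ^ (Real.log 2 / (2400 * Real.log (2 * p + 4)))) →
      (∀ q : ℕ, 2 ≤ q → ∀ σ : Fin v → ZMod q, ((p ^ q.factorization p : ℕ) : ZMod q) ∣ ∑ w, σ w → ∑ w, σ w ≠ 0 →
        ∀ π : List (Fm p), Refutes S d (tsg G q σ) π →
          (2 : ℝ) ^ ((v : ℝ) ^ (Real.log 2 / (2400 * Real.log (2 * p + 4)) / (d + 1))) ≤ psize π) ∧
      (p ≠ 2 → ∀ σ : Fin v → ZMod 2, ∑ w, σ w ≠ 0 →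
        ∀ π : List (Fm p), Refutes S d (tsgb G σ) π →
          (2 : ℝ) ^ ((v : ℝ) ^ (Real.log 2 / (2400 * Real.log (2 * p + 4)) / (d + 1))) ≤ psize π)

theorem mainTMu : StatementTMu := by
  intro p hp
  obtain ⟨n₀, h⟩ := mainTMr p hp
  refine ⟨n₀, fun n hn d hd S hS hv v G _ hG hmin hdeg => ?_⟩
  obtain ⟨h1, h2⟩ := h n hn d hd S 0 hS hv (by push_cast; positivity) v G hG hmin hdeg
  exact ⟨fun q hq σ hdvd hσ π hπ => h1 q hq σ hdvd hσ π (refutesR_of hπ), fun hp2 σ hσ π hπ => h2 hp2 σ hσ π (refutesR_of hπ)⟩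

theorem mainTEu : StatementTEu := by
  intro p hp k
  obtain ⟨v₀, h⟩ := mainTEr p hp k
  refine ⟨v₀, fun v hv d hd S hS hvS G _ hE hdeg => ?_⟩
  obtain ⟨h1, h2⟩ := h v hv d hd S 0 hS hvS (by push_cast; positivity) G hE hdeg
  exact ⟨fun q hq σ hdvd hσ π hπ => h1 q hq σ hdvd hσ π (refutesR_of hπ), fun hp2 σ hσ π hπ => h2 hp2 σ hσ π (refutesR_of hπ)⟩

end PPh
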