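import Pool.Agent.H94.Fin.Tse
import Pool.Agent.H85.GT.NsGraph
import Pool.Agent.H85.GT.Graph
import Pool.Agent.H85.AF.Complete

/-!
helper94 (Tseitin formulas for AC0[p]-Frege): the upper bounds of helper85 in a complete finite system of sound rules.
-/

set_option autoImplicit false
open Finset

namespace PPh

open ACpFrege

theorem refutes_mono94 {p : ℕ} {S S' : List (Rule p)} {d : ℕ} {F : CNF} {π : List (Fm p)} (hS : ∀ R ∈ S, R ∈ S')
    (h : Refutes S d F π) : Refutes S' d F π := by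
  obtain ⟨h1, h2, h3⟩ := h
  refine ⟨h1, fun i hi => ?_, h3⟩
  rcases h2 i hi with h | ⟨R, hR, s, G, h4, h5⟩
  · exact Or.inl h
  · exact Or.inr ⟨R, hS R hR, s, G, h4, h5⟩

/-- A complete system with the upper bounds for the Tseitin formulas. -/
theorem tseC {p : ℕ} (hp : p.Prime) {q : ℕ} (hq : 2 ≤ q) (Δ : ℕ) : ∃ (S : List (Rule p)) (c : ℕ), (∀ R ∈ S, R.Sound) ∧
    (∀ F : CNF, F.Unsat → ∃ π : List (Fm p), Refutes S 2 F π) ∧
    ∀ (v : ℕ) (G : SimpleGraph (Fin v)) [DecidableRel G.Adj], (∀ w, G.degree w ≤ Δ) →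
      (∀ σ : Fin v → ZMod q, ¬ ((p ^ q.factorization p : ℕ) : ZMod q) ∣ ∑ w, σ w →
        ∃ π : List (Fm p), Refutes S 2 (tsg G q σ) π ∧ psize π ≤ (v + 2) ^ c) ∧
      (p = 2 → ∀ σ : Fin v → ZMod 2, ∑ w, σ w ≠ 0 →
        ∃ π : List (Fm p), Refutes S 2 (tsgb G σ) π ∧ psize π ≤ (v + 2) ^ c) := by
  obtain ⟨S, c, hS, h⟩ := TU.tsg_upp hp q hq Δ
  by_cases h2 : p = 2
  · subst h2
    obtain ⟨S', c', hS', h'⟩ := TU.tsgb_up Δ
    refine ⟨S ++ S' ++ rules3 2, max c c', ?_, ?_, ?_⟩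
    · intro R hR
      simp only [List.mem_append] at hR
      rcases hR with (hR | hR) | hR
      · exact hS R hR
      · exact hS' R hR
      · exact rules3_sound 2 R hR
    · intro F hF
      obtain ⟨π, hπ⟩ := complete3 2 hF
      exact ⟨π, refutes_mono94 (fun R hR => List.mem_append_right _ hR) hπ⟩
    · intro v G _ hΔ
      refine ⟨fun σ hσ => ?_, fun _ σ hσ => ?_⟩
      · obtain ⟨π, h3, h4⟩ := h v G hΔ σ hσ
        exact ⟨π, refutes_mono94 (fun R hR => List.mem_append_left _ (List.mem_append_left _ hR)) h3,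
          h4.trans (Nat.pow_le_pow_right (by omega) (le_max_left _ _))⟩
      · obtain ⟨π, h3, h4⟩ := h' v G hΔ σ hσ
        exact ⟨π, refutes_mono94 (fun R hR => List.mem_append_left _ (List.mem_append_right _ hR)) h3,
          h4.trans (Nat.pow_le_pow_right (by omega) (le_max_right _ _))⟩
  · refine ⟨S ++ rules3 p, c, ?_, ?_, ?_⟩
    · intro R hR
      rcases List.mem_append.1 hR with hR | hR
      · exact hS R hR
      · exact rules3_sound p R hR
    · intro F hF
      obtain ⟨π, hπ⟩ := complete3 p hF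
      exact ⟨π, refutes_mono94 (fun R hR => List.mem_append_right _ hR) hπ⟩
    · intro v G _ hΔ
      refine ⟨fun σ hσ => ?_, fun h3 => absurd h3 h2⟩
      obtain ⟨π, h3, h4⟩ := h v G hΔ σ hσ
      exact ⟨π, refutes_mono94 (fun R hR => List.mem_append_left _ hR) h3, h4⟩

end PPh
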